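import Pool.Agent.H21.L.R_seed8.W353.TP.Inum
import Pool.Agent.H21.L.R_seed8.W353.TP.Orders

/-! Abstract systems of trace functions over `K`, and the Bessel inequality for their base changes
to all number fields. -/

set_option autoImplicit false

namespace Pool.Agent.W353.AB

open Complex Filter Topology ComplexConjugate NumberField IsDedekindDomain Pool.Agent.H341R2
  Asymptotics Pool.Agent.W353.TP

section
variable {K F : Type} [Field K] [NumberField K] [Field F] [NumberField F] [Algebra K F]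

/-- the character of the induced representation of a quadratic character, with a height -/
noncomputable def vq (K : Type) {F : Type} [Field K] [NumberField K] [Field F] [NumberField F]
    [Algebra K F] (D : 𝓞 F) (τ : ℝ) (x : HX K) : ℂ :=
  ((push K (qh D) x : ℝ) : ℂ) * ((x.1 : ℕ) : ℂ) ^ ((τ : ℂ) * I)

theorem norm_vq (D : 𝓞 F) (τ : ℝ) (x : HX K) : ‖vq K D τ x‖ ≤ Module.finrank ℚ F := by
  unfold vq
  rw [norm_mul]
  have h1 : ‖((x.1 : ℕ) : ℂ) ^ ((τ : ℂ) * I)‖ = 1 := (sysH K).norm_cpow_I x τ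
  rw [h1, mul_one, Complex.norm_real, Real.norm_eq_abs]
  have := push_abs_le (K := K) (qh_abs D) x
  rwa [mul_one] at this

/-- the Gram matrix -/
theorem gram {F' : Type} [Field F'] [NumberField F'] [Algebra K F'] {D : 𝓞 F} {D' : 𝓞 F'}
    (hD : D ≠ 0) (hD' : D' ≠ 0) (τ σ : ℝ) [Decidable (τ = σ)] :
    (fun ε => ((sysH K).E ε fun x : HX K => (vq K D τ x * conj (vq K D' σ x)).re) -
      (if τ = σ then (inum K F F' (D : F) (D' : F') : ℝ) else 0) * LL ε) =o[𝓝[>] 0] LL := by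
  classical
  set c : ℝ := if τ = σ then (inum K F F' (D : F) (D' : F') : ℝ) else 0 with hc
  have h1 := gram_low (K := K) hD hD' (σ - τ)
  have hc' : (if σ - τ = 0 then (inum K F F' (D : F) (D' : F') : ℝ) else 0) = c := by
    rw [hc]
    by_cases h : τ = σ
    · rw [if_pos h, if_pos (by rw [h, sub_self])]
    · rw [if_neg h, if_neg (fun h' => h (sub_eq_zero.1 h').symm)]
  rw [hc'] at h1
  have h2 := pnegl_isLittleO h1
  have hpt : ∀ x : HX K, (vq K D τ x * conj (vq K D' σ x)).re =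
      push K (qh D) x * push K (qh D') x *
        ((((x.1 : ℕ) : ℂ) ^ (-(((σ - τ : ℝ) : ℂ) * I))).re) := by
    intro x
    have h0 : (((x.1 : ℕ) : ℕ) : ℂ) ≠ 0 := (sysH K).N_ne x
    have hcj : conj (((x.1 : ℕ) : ℂ) ^ ((σ : ℂ) * I)) = ((x.1 : ℕ) : ℂ) ^ (-((σ : ℂ) * I)) :=
      (sysH K).conj_cpow_I x σ
    unfold vq
    rw [map_mul, Complex.conj_ofReal, hcj]
    have e1 : (((push K (qh D) x : ℝ) : ℂ) * ((x.1 : ℕ) : ℂ) ^ ((τ : ℂ) * I) *
        (((push K (qh D') x : ℝ) : ℂ) * ((x.1 : ℕ) : ℂ) ^ (-((σ : ℂ) * I)))) =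
        ((push K (qh D) x * push K (qh D') x : ℝ) : ℂ) *
          ((x.1 : ℕ) : ℂ) ^ (-(((σ - τ : ℝ) : ℂ) * I)) := by
      have e2 : (-(((σ - τ : ℝ) : ℂ) * I)) = (τ : ℂ) * I + -((σ : ℂ) * I) := by
        push_cast
        ring
      rw [e2, Complex.cpow_add _ _ h0]
      push_cast
      ring
    rw [e1, Complex.re_ofReal_mul]
  have hb : ∀ x : HX K, |(vq K D τ x * conj (vq K D' σ x)).re| ≤
      (Module.finrank ℚ F : ℝ) * Module.finrank ℚ F' := by
    intro x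
    refine (Complex.abs_re_le_norm _).trans ?_
    rw [norm_mul, Complex.norm_conj]
    exact mul_le_mul (norm_vq D τ x) (norm_vq D' σ x) (norm_nonneg _) (by positivity)
  have h3 : (fun ε => c * (lam ε - LL ε)) =o[𝓝[>] 0] LL := lam0_sub.const_mul_left c
  refine (h2.add h3).congr' ?_ (EventuallyEq.refl _ _)
  filter_upwards [self_mem_nhdsWithin] with ε hε
  have hε' : (0 : ℝ) < ε := hε
  have e3 := EH_eq (K := K) hε' hb
  have e4 : ((sysH K).E ε fun x : HX K => (vq K D τ x * conj (vq K D' σ x)).re) =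
      E ε fun p => ∑ u : 𝓞 K →+* ZMod (p : ℕ),
        (vq K D τ ⟨p, u⟩ * conj (vq K D' σ ⟨p, u⟩)).re := e3
  have hb1 : ∀ p : Nat.Primes, |∑ u : 𝓞 K →+* ZMod (p : ℕ),
      (vq K D τ ⟨p, u⟩ * conj (vq K D' σ ⟨p, u⟩)).re| ≤
      Module.finrank ℚ K * ((Module.finrank ℚ F : ℝ) * Module.finrank ℚ F') := by
    intro p
    refine (Finset.abs_sum_le_sum_abs _ _).trans ?_
    refine (Finset.sum_le_sum fun u _ => hb _).trans ?_
    rw [Finset.sum_const, nsmul_eq_mul, Finset.card_univ]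
    exact mul_le_mul_of_nonneg_right (by exact_mod_cast card_hom_le p) (by positivity)
  have e5 : (E ε fun p => (∑ u : 𝓞 K →+* ZMod (p : ℕ),
      push K (qh D) ⟨p, u⟩ * push K (qh D') ⟨p, u⟩ *
      (((p : ℕ) : ℂ) ^ (-(((σ - τ : ℝ) : ℂ) * I))).re) - c) =
      (E ε fun p => ∑ u : 𝓞 K →+* ZMod (p : ℕ),
        (vq K D τ ⟨p, u⟩ * conj (vq K D' σ ⟨p, u⟩)).re) - c * lam ε := by
    have e6 : (fun p : Nat.Primes => (∑ u : 𝓞 K →+* ZMod (p : ℕ),
        push K (qh D) ⟨p, u⟩ * push K (qh D') ⟨p, u⟩ *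
        (((p : ℕ) : ℂ) ^ (-(((σ - τ : ℝ) : ℂ) * I))).re) - c) =
        fun p : Nat.Primes => (∑ u : 𝓞 K →+* ZMod (p : ℕ),
          (vq K D τ ⟨p, u⟩ * conj (vq K D' σ ⟨p, u⟩)).re) + (-c) * (1 : ℝ) := by
      funext p
      rw [mul_one, ← sub_eq_add_neg]
      congr 1
      exact Finset.sum_congr rfl fun u _ => (hpt ⟨p, u⟩).symm
    rw [e6, E_add hε' hb1 (B' := |c|) (fun p => by rw [mul_one, abs_neg]), E_const_mul]
    have e7 : (E ε fun _ => (1 : ℝ)) = lam ε := by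
      unfold E lam
      exact tsum_congr fun p => one_mul _
    rw [e7]
    ring
  rw [e5, e4]
  ring

/-- symmetry of the intertwining numbers -/
theorem inum_comm' {G : Type} [Field G] [NumberField G] [Algebra K G] {D : 𝓞 F} {D' : 𝓞 G}
    (hD : D ≠ 0) (hD' : D' ≠ 0) : inum K F G (D : F) (D' : G) = inum K G F (D' : G) (D : F) := by
  have h := inum_symm (K := K) (F := F) (G := G) (r := 2) (d := ![D, 1]) (e := ![D', 1])
    (fun i => by fin_cases i <;> simp [hD]) (fun i => by fin_cases i <;> simp [hD']) (0, 1)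
  simpa using h

end

/-- A system of trace functions over `K`: the components are indexed by the finite set `P`, the
component `j` has the coefficients `T j`, bounded by `b j`, and it is twisted by the product of the
`d_i` over `i ∈ A j` when the system is twisted by `d`. -/
structure Sy (K : Type) [Field K] [NumberField K] where
  ι : Type
  P : Finset ι
  r : ℕ
  A : ι → Finset (Fin r)
  T : ι → HX K → ℂ
  b : ι → ℝ
  hb : ∀ j ∈ P, 0 ≤ b j
  hT : ∀ j ∈ P, ∀ x, ‖T j x‖ ≤ b j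

section
variable {K : Type} [Field K] [NumberField K]

/-- the twist of the component `j` -/
noncomputable def Sy.D (𝒮 : Sy K) {R : Type*} [CommMonoid R] (d : Fin 𝒮.r → R) (j : 𝒮.ι) : R :=
  ∏ i ∈ 𝒮.A j, d i

theorem Sy.D_ne (𝒮 : Sy K) {F : Type} [Field F] {d : Fin 𝒮.r → 𝓞 F} (hd : ∀ i, d i ≠ 0)
    (j : 𝒮.ι) : 𝒮.D d j ≠ 0 := Finset.prod_ne_zero_iff.2 fun i _ => hd i

/-- the correlation of the system with a twist -/
noncomputable def Sy.corr (𝒮 : Sy K) {F : Type} [Field F] [NumberField F] [Algebra K F]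
    (d : Fin 𝒮.r → 𝓞 F) (τ ε : ℝ) : ℝ :=
  ∑ j ∈ 𝒮.P, (sysH K).E ε fun x : HX K => (𝒮.T j x * conj (vq K (𝒮.D d j) τ x)).re

/-- `X ε` is the size of the twist on the scale `log (1/ε)` -/
def Sy.IsSize (𝒮 : Sy K) {F : Type} [Field F] [NumberField F] [Algebra K F]
    (d : Fin 𝒮.r → 𝓞 F) (τ : ℝ) (X : ℝ → ℝ) : Prop :=
  (fun ε => X ε * LL ε - 𝒮.corr d τ ε) =o[𝓝[>] 0] LL

/-- the entries of the Gram matrix -/
noncomputable def Sy.G (𝒮 : Sy K) {F F' : Type} [Field F] [NumberField F] [Algebra K F]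
    [Field F'] [NumberField F'] [Algebra K F'] (d : Fin 𝒮.r → 𝓞 F) (τ : ℝ)
    (e : Fin 𝒮.r → 𝓞 F') (σ : ℝ) : ℝ := by
  classical
  exact ∑ j ∈ 𝒮.P, 𝒮.b j * (if τ = σ then
    (inum K F F' ((𝒮.D d j : 𝓞 F) : F) ((𝒮.D e j : 𝓞 F') : F') : ℝ) else 0)

/-- **The Bessel inequality.** -/
theorem main_ineq (𝒮 : Sy K) {κ : Type} (T : Finset κ) (F : κ → Type)
    [∀ k, Field (F k)] [∀ k, NumberField (F k)] [∀ k, Algebra K (F k)]
    (d : ∀ k, Fin 𝒮.r → 𝓞 (F k)) (τ : κ → ℝ) (hd0 : ∀ k ∈ T, ∀ i, d k i ≠ 0)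
    (X : κ → ℝ → ℝ) (hX : ∀ k ∈ T, 𝒮.IsSize (d k) (τ k) (X k)) (c : κ → ℝ) {η : ℝ}
    (hη : 0 < η) :
    ∀ᶠ ε : ℝ in 𝓝[>] 0, (∑ k ∈ T, c k * X k ε) ^ 2 ≤
      (∑ j ∈ 𝒮.P, 𝒮.b j) * (∑ k ∈ T, ∑ l ∈ T, c k * c l * 𝒮.G (d k) (τ k) (d l) (τ l)) + η := by
  classical
  set H : κ → 𝒮.ι → ℝ → ℝ := fun k j ε =>
    (sysH K).E ε fun x : HX K => (𝒮.T j x * conj (vq K (𝒮.D (d k) j) (τ k) x)).re with hH
  set W : 𝒮.ι → (sysH K).X → ℂ := fun j x =>
    ∑ k ∈ T, (c k : ℂ) * vq K (𝒮.D (d k) j) (τ k) x with hW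
  set Y : ℝ → ℝ := fun ε => ∑ j ∈ 𝒮.P,
    (sysH K).E ε fun x : HX K => (𝒮.T j x * conj (W j x)).re with hY
  have hvb : ∀ k ∈ T, ∀ (j : 𝒮.ι) (x : HX K), ‖vq K (𝒮.D (d k) j) (τ k) x‖ ≤
      Module.finrank ℚ (F k) := fun k _ j x => norm_vq _ (τ k) x
  have hWb : ∀ (j : 𝒮.ι) (x : HX K), ‖W j x‖ ≤
      ∑ k ∈ T, |c k| * Module.finrank ℚ (F k) := by
    intro j x
    refine (norm_sum_le _ _).trans (Finset.sum_le_sum fun k hk => ?_)
    rw [norm_mul, Complex.norm_real, Real.norm_eq_abs]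
    exact mul_le_mul_of_nonneg_left (hvb k hk j x) (abs_nonneg _)
  -- linearity
  have hYlin : ∀ ε : ℝ, 0 < ε → Y ε = ∑ k ∈ T, c k * ∑ j ∈ 𝒮.P, H k j ε := by
    intro ε hε
    have e1 : ∀ j ∈ 𝒮.P, ((sysH K).E ε fun x : HX K => (𝒮.T j x * conj (W j x)).re) =
        ∑ k ∈ T, c k * H k j ε := by
      intro j hj
      have e2 : (fun x : HX K => (𝒮.T j x * conj (W j x)).re) =
          fun x : HX K => ∑ k ∈ T, c k *
            (𝒮.T j x * conj (vq K (𝒮.D (d k) j) (τ k) x)).re := by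
        funext x
        rw [hW]
        simp only
        rw [map_sum, Finset.mul_sum, Complex.re_sum]
        refine Finset.sum_congr rfl fun k _ => ?_
        rw [map_mul, Complex.conj_ofReal, mul_left_comm, Complex.re_ofReal_mul]
      have e3 := (sysH K).E_sum hε T (fun k (x : HX K) =>
        c k * (𝒮.T j x * conj (vq K (𝒮.D (d k) j) (τ k) x)).re)
        (fun k => |c k| * (𝒮.b j * Module.finrank ℚ (F k))) (by
          intro k hk x
          rw [abs_mul]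
          refine mul_le_mul_of_nonneg_left ?_ (abs_nonneg _)
          refine (Complex.abs_re_le_norm _).trans ?_
          rw [norm_mul, Complex.norm_conj]
          exact mul_le_mul (𝒮.hT j hj x) (hvb k hk j x) (norm_nonneg _) (𝒮.hb j hj))
      have e4 : ((sysH K).E ε fun x : HX K => (𝒮.T j x * conj (W j x)).re) =
          (sysH K).E ε fun x : HX K => ∑ k ∈ T, c k *
            (𝒮.T j x * conj (vq K (𝒮.D (d k) j) (τ k) x)).re := congrArg ((sysH K).E ε) e2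
      rw [e4]
      refine e3.trans ?_
      refine Finset.sum_congr rfl fun k _ => ?_
      exact (sysH K).E_const_mul _ _
    rw [hY]
    simp only
    rw [Finset.sum_congr rfl e1, Finset.sum_comm]
    refine Finset.sum_congr rfl fun k _ => ?_
    rw [Finset.mul_sum]
  set z : ℝ → ℝ := fun ε => ∑ k ∈ T, c k * (X k ε * LL ε) with hz
  have o1 : (fun ε => z ε - Y ε) =o[𝓝[>] 0] LL := by
    have o2 : (fun ε => ∑ k ∈ T, c k * (X k ε * LL ε - ∑ j ∈ 𝒮.P, H k j ε))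
        =o[𝓝[>] 0] LL := by
      refine fsum_isLittleO _ fun k hk => IsLittleO.const_mul_left ?_ _
      exact hX k hk
    refine o2.congr' ?_ (EventuallyEq.refl _ _)
    filter_upwards [self_mem_nhdsWithin] with ε hε
    rw [hYlin ε hε, hz]
    simp only
    rw [← Finset.sum_sub_distrib]
    refine Finset.sum_congr rfl fun k _ => ?_
    ring
  -- the Gram matrix
  set Q : ℝ → ℝ := fun ε => ∑ j ∈ 𝒮.P, 𝒮.b j * (sysH K).E ε fun x => ‖W j x‖ ^ 2 with hQ
  set G : ℝ := ∑ k ∈ T, ∑ l ∈ T, c k * c l * 𝒮.G (d k) (τ k) (d l) (τ l) with hG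
  have o3 : (fun ε => Q ε - G * LL ε) =o[𝓝[>] 0] LL := by
    have o4 : (fun ε => ∑ j ∈ 𝒮.P, 𝒮.b j * ∑ k ∈ T, ∑ l ∈ T, (c k * c l) *
        (((sysH K).E ε fun x : HX K => (vq K (𝒮.D (d k) j) (τ k) x *
          conj (vq K (𝒮.D (d l) j) (τ l) x)).re) -
        (if τ k = τ l then (inum K (F k) (F l) ((𝒮.D (d k) j : 𝓞 (F k)) : F k)
          ((𝒮.D (d l) j : 𝓞 (F l)) : F l) : ℝ) else 0) * LL ε)) =o[𝓝[>] 0] LL := by
      refine fsum_isLittleO _ fun j _ => IsLittleO.const_mul_left ?_ _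
      refine fsum_isLittleO _ fun k hk => fsum_isLittleO _ fun l hl => IsLittleO.const_mul_left ?_ _
      exact gram (𝒮.D_ne (hd0 k hk) j) (𝒮.D_ne (hd0 l hl) j) (τ k) (τ l)
    refine o4.congr' ?_ (EventuallyEq.refl _ _)
    filter_upwards [self_mem_nhdsWithin] with ε hε
    have hε' : (0 : ℝ) < ε := hε
    have e1 : ∀ j, ((sysH K).E ε fun x => ‖W j x‖ ^ 2) = ∑ k ∈ T, ∑ l ∈ T, (c k * c l) *
        (sysH K).E ε fun x : HX K => (vq K (𝒮.D (d k) j) (τ k) x *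
          conj (vq K (𝒮.D (d l) j) (τ l) x)).re := by
      intro j
      exact E_norm_sq (sysH K) T c (fun k => vq K (𝒮.D (d k) j) (τ k))
        (fun k => Module.finrank ℚ (F k)) (fun k hk x => hvb k hk j x) hε'
    have e2 : G = ∑ j ∈ 𝒮.P, 𝒮.b j * ∑ k ∈ T, ∑ l ∈ T, (c k * c l) *
        (if τ k = τ l then (inum K (F k) (F l) ((𝒮.D (d k) j : 𝓞 (F k)) : F k)
          ((𝒮.D (d l) j : 𝓞 (F l)) : F l) : ℝ) else 0) := by
      rw [hG]
      simp only [Finset.mul_sum]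
      rw [Finset.sum_comm' (s := 𝒮.P) (t := fun _ => T) (t' := T) (s' := fun _ => 𝒮.P)
        (by tauto)]
      refine Finset.sum_congr rfl fun k _ => ?_
      rw [Finset.sum_comm' (s := 𝒮.P) (t := fun _ => T) (t' := T) (s' := fun _ => 𝒮.P)
        (by tauto)]
      refine Finset.sum_congr rfl fun l _ => ?_
      unfold Sy.G
      rw [Finset.mul_sum]
      refine Finset.sum_congr rfl fun j _ => ?_
      ring
    rw [hQ, e2, Finset.sum_mul]
    simp only
    rw [← Finset.sum_sub_distrib]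
    refine Finset.sum_congr rfl fun j _ => ?_
    rw [e1 j, mul_assoc, ← mul_sub, Finset.sum_mul, ← Finset.sum_sub_distrib]
    congr 1
    refine Finset.sum_congr rfl fun k _ => ?_
    rw [Finset.sum_mul, ← Finset.sum_sub_distrib]
    refine Finset.sum_congr rfl fun l _ => ?_
    ring
  have h2 : ∀ᶠ ε : ℝ in 𝓝[>] 0, Y ε ^ 2 ≤ (∑ j ∈ 𝒮.P, 𝒮.b j) * ((sysH K).lam ε * Q ε) := by
    filter_upwards [self_mem_nhdsWithin] with ε hε
    exact corr_sq_le (sysH K) 𝒮.P 𝒮.T W 𝒮.b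
      (fun _ => ∑ k ∈ T, |c k| * Module.finrank ℚ (F k)) 𝒮.hb
      (fun j hj x => 𝒮.hT j hj x) (fun j _ x => hWb j x) hε
  have h := final_ineq o1 h2 (lamS_sub (sysH K)) o3 hη
  filter_upwards [h, LL_tendsto.eventually_gt_atTop 0] with ε h5 h6
  have e7 : ∑ k ∈ T, c k * X k ε = z ε / LL ε := by
    rw [hz]
    simp only
    rw [Finset.sum_div]
    refine Finset.sum_congr rfl fun k _ => ?_
    field_simp
  rw [e7]
  exact h5

/-- sizes are bounded -/
theorem size_bdd (𝒮 : Sy K) {F : Type} [Field F] [NumberField F] [Algebra K F]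
    {d : Fin 𝒮.r → 𝓞 F} {τ : ℝ} {X : ℝ → ℝ} (h : 𝒮.IsSize d τ X) :
    ∃ C : ℝ, ∀ᶠ ε : ℝ in 𝓝[>] 0, |X ε| ≤ C := by
  have h2 : (fun ε : ℝ => 𝒮.corr d τ ε) =O[𝓝[>] 0] LL := by
    have e1 : ∀ j ∈ 𝒮.P, (fun ε : ℝ => (sysH K).E ε fun x : HX K =>
        (𝒮.T j x * conj (vq K (𝒮.D d j) τ x)).re) =O[𝓝[>] 0] LL := by
      intro j hj
      have hb : ∀ x : HX K, |(𝒮.T j x * conj (vq K (𝒮.D d j) τ x)).re| ≤
          𝒮.b j * Module.finrank ℚ F := by
        intro x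
        refine (Complex.abs_re_le_norm _).trans ?_
        rw [norm_mul, Complex.norm_conj]
        exact mul_le_mul (𝒮.hT j hj x) (norm_vq _ τ x) (norm_nonneg _) (𝒮.hb j hj)
      have e2 : (fun ε : ℝ => (sysH K).E ε fun x : HX K =>
          (𝒮.T j x * conj (vq K (𝒮.D d j) τ x)).re) =O[𝓝[>] 0] (sysH K).lam := by
        refine IsBigO.of_bound (𝒮.b j * Module.finrank ℚ F) ?_
        filter_upwards [self_mem_nhdsWithin] with ε hε
        have hε' : (0 : ℝ) < ε := hε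
        rw [Real.norm_eq_abs, Real.norm_eq_abs, abs_of_nonneg (lam_nonneg (sysH K) ε)]
        refine (abs_E_le (sysH K) hε' hb).trans ?_
        exact (sysH K).E_le hε' (fun x => by rw [abs_abs]; exact hb x) hb
      exact e2.trans (lamS_isBigO (sysH K))
    have := IsBigO.sum e1
    refine this.congr_left fun ε => ?_
    rw [Finset.sum_apply]
    rfl
  have h4 : (fun ε : ℝ => X ε * LL ε) =O[𝓝[>] 0] LL := by
    refine (h.isBigO.add h2).congr_left fun ε => ?_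
    ring
  obtain ⟨C, hC⟩ := h4.bound
  refine ⟨C, ?_⟩
  filter_upwards [hC, LL_tendsto.eventually_gt_atTop 0] with ε h5 h6
  rw [Real.norm_eq_abs, Real.norm_eq_abs, abs_mul, abs_of_pos h6] at h5
  exact le_of_mul_le_mul_right h5 h6

end

end Pool.Agent.W353.AB
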